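import Pool.Agent.helper70.M8.Chk
import Pool.Agent.helper70.M8.J3b
import Pool.Agent.helper70.M8.C1
import Pool.Agent.helper70.M8.JF
import Pool.Agent.helper55.M9.G2b
import Pool.Agent.helper56.M9.G3

set_option autoImplicit false

/-! # OCT9-G4: soundness of the integer test of a column (compact layout) -/

open MvPolynomial Set Filter Topology

namespace Oct

private theorem ev_hom {F : MvPolynomial (Fin 3) ℝ} {d : ℕ} (hF : F.IsHomogeneous d)
    (c : ℝ) (w : Fin 3 → ℝ) : eval (c • w) F = c ^ d * eval w F := by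
  rw [MvPolynomial.eval_eq, MvPolynomial.eval_eq, Finset.mul_sum]
  refine Finset.sum_congr rfl (fun m hm => ?_)
  have h1 : ∏ i ∈ m.support, (c • w) i ^ m i = c ^ d * ∏ i ∈ m.support, w i ^ m i := by
    have h2 : ∑ i ∈ m.support, m i = d := by
      have := hF (mem_support_iff.1 hm)
      rw [← this]
      simp [Finsupp.weight_apply, Finsupp.sum]
    rw [← h2, ← Finset.prod_pow_eq_pow_sum, ← Finset.prod_mul_distrib]
    refine Finset.prod_congr rfl (fun i _ => ?_)
    rw [Pi.smul_apply, smul_eq_mul, mul_pow]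
  rw [h1]
  ring

private theorem nn_tn {z : ℤ} (h : nn z = true) : z = (tn z : ℤ) := by
  cases z with
  | ofNat k => rfl
  | negSucc k => exact absurd h (by show ¬ (false = true); simp)

private theorem sg_not (b : Bool) : sg (!b) = -sg b := by
  cases b <;> simp [sg]

section
variable {F : MvPolynomial (Fin 3) ℝ} {ch : Chart} {G : List (List ℤ)}
  (hG : ∀ t u : ℝ, eval (ch.pt t u) F = evT G t u)
include hG

private theorem e0 (t u : ℝ) : eval ![t, u] (ch.pull F) = evT G t u := by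
  rw [eval_pull, hG]

private theorem e0' : (fun p : ℝ × ℝ => eval ![p.1, p.2] (ch.pull F)) =
    fun p => evT G p.1 p.2 := by
  funext p
  exact e0 hG p.1 p.2

private theorem eT (t u : ℝ) : eval ![t, u] (pderiv 0 (ch.pull F)) = evT (dT G) t u := by
  have h1 := hasDerivAt_fst (ch.pull F) t u
  have h2 : (fun x => eval ![x, u] (ch.pull F)) = fun x => evT G x u := by
    funext x
    exact e0 hG x u
  rw [h2] at h1
  exact h1.unique (Oct.hasDerivAt_dT G t u)

private theorem eU (t u : ℝ) : eval ![t, u] (pderiv 1 (ch.pull F)) = evT (dU G) t u := by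
  have h1 := hasDerivAt_snd (ch.pull F) t u
  have h2 : (fun x => eval ![t, x] (ch.pull F)) = fun x => evT G t x := by
    funext x
    exact e0 hG t x
  rw [h2] at h1
  exact h1.unique (Oct.hasDerivAt_dU G t u)

private theorem eUU (t u : ℝ) : eval ![t, u] (pderiv 1 (pderiv 1 (ch.pull F))) =
    evT (dU (dU G)) t u := by
  have h1 := hasDerivAt_snd (pderiv 1 (ch.pull F)) t u
  have h2 : (fun x => eval ![t, x] (pderiv 1 (ch.pull F))) = fun x => evT (dU G) t x := by
    funext x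
    exact eU hG t x
  rw [h2] at h1
  exact h1.unique (Oct.hasDerivAt_dU (dU G) t u)

end

/-- from values to `PosOn` -/
private theorem posOn_of {P : MvPolynomial (Fin 2) ℝ} {f : ℝ → ℝ → ℝ}
    (hP : ∀ t u, eval ![t, u] P = f t u) {r : ℝ} {a b x y : ℝ}
    (h : ∀ t ∈ Icc a b, ∀ u ∈ Icc x y, 0 < r * f t u) : PosOn (C r * P) a b x y := by
  intro t ht u hu
  rw [map_mul, eval_C, hP]
  exact h t ht u hu

private theorem pole_false : pole false = ![0, 0, 1] := by
  simp [pole, sg]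

private theorem pole_true : pole true = (-1 : ℝ) • (![0, 0, 1] : Fin 3 → ℝ) := by
  funext i
  fin_cases i <;> simp [pole, sg]

/-! ### fast tests -/

private theorem blt_lt {a b : ℕ} (h : Nat.blt a b = true) : a < b := Nat.le_of_ble_eq_true h

/-! ### weighted conditions -/

private theorem eval_wD (P : MvPolynomial (Fin 2) ℝ) (o : ℤ) (k : ℕ) (t u : ℝ) :
    eval ![t, u] (wD o k P) =
      2 * (u - o) * eval ![t, u] (pderiv 1 P) - k * eval ![t, u] P := by
  unfold wD
  simp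

private theorem posOn_one {P : MvPolynomial (Fin 2) ℝ} {f : ℝ → ℝ} {t0 : ℝ}
    (hP : ∀ u, eval ![t0, u] P = f u) {r : ℝ} {x y : ℝ}
    (h : ∀ u ∈ Icc x y, 0 < r * f u) : PosOn (C r * P) t0 t0 x y := by
  intro t ht u hu
  have ht' : t = t0 := le_antisymm ht.2 ht.1
  rw [ht', map_mul, eval_C, hP]
  exact h u hu

private theorem line_d {P : MvPolynomial (Fin 2) ℝ} {H : List (List ℤ)} {t0 t1 : ℝ}
    (hP : ∀ u, eval ![t0, u] P = evT H t1 u) (u : ℝ) :
    eval ![t0, u] (pderiv 1 P) = evT (dU H) t1 u := by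
  have h1 := hasDerivAt_snd P t0 u
  have h2 : (fun x => eval ![t0, x] P) = fun x => evT H t1 x := by
    funext x
    exact hP x
  rw [h2] at h1
  exact h1.unique (Oct.hasDerivAt_dU H t1 u)

private theorem line_w {P : MvPolynomial (Fin 2) ℝ} {H : List (List ℤ)} {t0 t1 : ℝ}
    (hP : ∀ u, eval ![t0, u] P = evT H t1 u) (o : ℤ) (k : ℕ) (u : ℝ) :
    eval ![t0, u] (wD o k P) = evT (wT o k H) t1 u := by
  rw [eval_wD, evT_wT, line_d hP, hP]


/-- from values on a horizontal line to `PosOn` -/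
private theorem posOn_pt {P : MvPolynomial (Fin 2) ℝ} {f : ℝ → ℝ → ℝ}
    (hP : ∀ t u, eval ![t, u] P = f t u) {r : ℝ} {a b y : ℝ}
    (h : ∀ t ∈ Icc a b, 0 < r * f t y) : PosOn (C r * P) a b y y := by
  intro t ht u hu
  have hu' : u = y := le_antisymm hu.2 hu.1
  rw [hu', map_mul, eval_C, hP]
  exact h t ht

private theorem posOn_pt1 {P : MvPolynomial (Fin 2) ℝ} {f : ℝ → ℝ} {t0 : ℝ}
    (hP : ∀ u, eval ![t0, u] P = f u) {r y : ℝ}
    (h : 0 < r * f y) : PosOn (C r * P) t0 t0 y y := by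
  intro t ht u hu
  have ht' : t = t0 := le_antisymm ht.2 ht.1
  have hu' : u = y := le_antisymm hu.2 hu.1
  rw [ht', hu', map_mul, eval_C, hP]
  exact h


private theorem len_of_size {B m n : ℕ} {G : List (List ℤ)} {tm um : ℕ}
    (hs : sizeOK B m n G tm um = true) : G.length ≤ n + 1 := by
  unfold sizeOK at hs
  simp only [Bool.and_eq_true, decide_eq_true_eq] at hs
  exact hs.1.1.1.1.1

private theorem len_rows {B m n : ℕ} {G : List (List ℤ)} {tm um : ℕ}
    (hs : sizeOK B m n G tm um = true) : ∀ l ∈ G, l.length ≤ m + 1 := by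
  unfold sizeOK at hs
  simp only [Bool.and_eq_true, decide_eq_true_eq, List.all_eq_true] at hs
  exact hs.1.1.1.1.2

/-! ### lengths of the rows of the tables -/

private theorem length_addP (p q : List ℤ) : (addP p q).length = max p.length q.length := by
  induction p generalizing q with
  | nil =>
    have h : addP [] q = q := by cases q <;> rfl
    rw [h]; simp
  | cons a p ih =>
    cases q with
    | nil => show (a :: p).length = _; simp
    | cons b q =>
      show (addP p q).length + 1 = _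
      rw [ih]
      simp only [List.length_cons]
      omega

private theorem len_addT {c : ℕ} {p q : List (List ℤ)} (hp : ∀ l ∈ p, l.length ≤ c)
    (hq : ∀ l ∈ q, l.length ≤ c) : ∀ l ∈ addT p q, l.length ≤ c := by
  induction p generalizing q with
  | nil =>
    have h : addT [] q = q := by cases q <;> rfl
    rw [h]
    exact hq
  | cons a p ih =>
    cases q with
    | nil => exact hp
    | cons b q =>
      intro l hl
      have hl' : l = addP a b ∨ l ∈ addT p q := List.mem_cons.1 hl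
      rcases hl' with h | h
      · rw [h, length_addP]
        exact max_le (hp a List.mem_cons_self) (hq b List.mem_cons_self)
      · exact ih (fun l hl => hp l (List.mem_cons_of_mem _ hl))
          (fun l hl => hq l (List.mem_cons_of_mem _ hl)) l h

private theorem len_map_smul {c : ℕ} {p : List (List ℤ)} (k : ℤ) (hp : ∀ l ∈ p, l.length ≤ c) :
    ∀ l ∈ p.map (smulP k), l.length ≤ c := by
  intro l hl
  obtain ⟨l', h1, h2⟩ := List.mem_map.1 hl
  rw [← h2]
  unfold smulP
  rw [List.length_map]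
  exact hp l' h1

private theorem len_derT {c : ℕ} {p : List (List ℤ)} : ∀ k : ℕ, (∀ l ∈ p, l.length ≤ c) →
    ∀ l ∈ derT k p, l.length ≤ c := by
  induction p with
  | nil => intro k _ l hl; exact absurd hl (by simp [derT])
  | cons a p ih =>
    intro k hp l hl
    have hl' : l = a.map (fun c => (k : ℤ) * c) ∨ l ∈ derT (k + 1) p := List.mem_cons.1 hl
    rcases hl' with h | h
    · rw [h, List.length_map]
      exact hp a List.mem_cons_self
    · exact ih (k + 1) (fun l hl => hp l (List.mem_cons_of_mem _ hl)) l h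

private theorem len_dU {c : ℕ} {p : List (List ℤ)} (hp : ∀ l ∈ p, l.length ≤ c) :
    ∀ l ∈ dU p, l.length ≤ c := by
  unfold dU
  exact len_derT 1 (fun l hl => hp l (List.mem_of_mem_tail hl))

private theorem len_wT {c : ℕ} {p : List (List ℤ)} (o : ℤ) (k : ℕ)
    (hp : ∀ l ∈ p, l.length ≤ c) : ∀ l ∈ wT o k p, l.length ≤ c := by
  unfold wT
  refine len_addT ?_ (len_addT (len_map_smul _ (len_dU hp)) (len_map_smul _ hp))
  intro l hl
  rcases List.mem_cons.1 hl with h | h
  · rw [h]; simp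
  · exact len_map_smul _ (len_dU hp) l h

private theorem wT_ne (o : ℤ) (k : ℕ) (p : List (List ℤ)) : wT o k p ≠ [] := by
  unfold wT
  generalize addT ((dU p).map (smulP (-2 * o))) (p.map (smulP (-(k : ℤ)))) = Y
  cases Y with
  | nil => simp [addT]
  | cons y Y => simp [addT]

private theorem len_atT (G : List (List ℤ)) (a : ℤ) : ∀ l ∈ atT G a, l.length ≤ 0 + 1 := by
  intro l hl
  unfold atT at hl
  obtain ⟨l', h1, h2⟩ := List.mem_map.1 hl
  rw [← h2]
  simp

private theorem atT_ne {G : List (List ℤ)} (hG : G ≠ []) (a : ℤ) : atT G a ≠ [] := by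
  unfold atT
  simpa using hG

/-! ### the tests -/

/-- test of a box, main table -/
private theorem t2_sound {B m n : ℕ} {H : List (List ℤ)} {tm um : ℕ}
    (hs : sizeOK B m n H tm um = true) {a b lo hi : ℕ} (ha : a ≤ tm) (hb : b ≤ tm)
    (hlo : lo ≤ um) (hhi : hi ≤ um) {σ : Bool} {V : List SM} (hV : RowsOf B m H a b V)
    (h : tst2 (kcOf B m n) (zipG (kcOf B m n).S V (kcOf B m n).n) σ lo hi = true) :
    ∀ t ∈ Icc (a : ℝ) b, ∀ u ∈ Icc (lo : ℝ) hi, 0 < sg σ * evT H t u := by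
  refine tst2_sound hs ha hb hlo hhi ?_ h
  exact horG_zip_val hV (len_of_size hs)

/-- test of a box, table with weight -/
private theorem t2w_sound {B m n : ℕ} {G : List (List ℤ)} {tm um : ℕ} {o k : ℕ}
    (hs : sizeOK B m n (wT (o : ℤ) k G) tm um = true) (hne : G ≠ [])
    (hl : ∀ l ∈ G, l.length ≤ m + 1)
    {a b lo hi : ℕ} (ha : a ≤ tm) (hb : b ≤ tm)
    (hlo : lo ≤ um) (hhi : hi ≤ um) {σ : Bool} {V : List SM} (hV : RowsOf B m G a b V)
    (h : tst2 (kcOf B m n) (wG k (zipG (kcOf B m n).S (eG o V 0) (kcOf B m n).n)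
      (zipG (kcOf B m n).S V (kcOf B m n).n)) σ lo hi = true) :
    ∀ t ∈ Icc (a : ℝ) b, ∀ u ∈ Icc (lo : ℝ) hi, 0 < sg σ * evT (wT (o : ℤ) k G) t u := by
  refine tst2_sound hs ha hb hlo hhi ?_ h
  rw [← horG_zip_val (wG_rows hne hV hl o k) (len_of_size hs)]
  exact horG_zip_wG n o k lo hi (B * (m + 1)) V

private theorem upG_sound {B m n : ℕ} {G : List (List ℤ)} {tm um : ℕ}
    (s0 : sizeOK B m n G tm um = true) (sU : sizeOK B m n (dU G) tm um = true) {o : ℤ}
    (sw : ∀ k ≤ 16, sizeOK B m n (wT o k G) tm um = true) (ho : 0 ≤ o) (hne : G ≠ [])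
    {a b lo hi : ℕ} (ha : a ≤ tm) (hb : b ≤ tm) (hlo : lo ≤ um) (hhi : hi ≤ um) {s : Bool} {w : ℕ}
    {DT : List (List ℤ)} {V : List SM} (hV : RowsOf B m G a b V)
    (h : upG (kcOf B m n) (rowsG (kcOf B m n) G DT (tn o) a b V) (tn o) w s lo hi = true)
    {P : MvPolynomial (Fin 2) ℝ}
    (hP : ∀ t u, eval ![t, u] P = evT G t u) : UpC P o w s a b lo hi := by
  have hoN : o = ((tn o : ℕ) : ℤ) := by
    cases o with
    | ofNat k => rfl
    | negSucc k => exact absurd ho (by simp)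
  have ho' : (o : ℝ) = ((tn o : ℕ) : ℝ) := by
    exact_mod_cast congrArg (fun z : ℤ => (z : ℝ)) hoN
  unfold UpC
  cases w with
  | zero =>
    simp only [upG] at h
    refine Or.inl ⟨rfl, posOn_of (fun t u => line_d (hP t) u) ?_⟩
    exact t2_sound sU ha hb hlo hhi (duG_rows hV) h
  | succ j =>
    simp only [upG, Bool.and_eq_true, Bool.or_eq_true] at h
    obtain ⟨hj, h⟩ := h
    have hj' : j ≤ 15 := Nat.le_of_ble_eq_true hj
    have hs := sw (j + 1) (by omega)
    right
    rcases h with ⟨h1, h2⟩ | ⟨h1, h2⟩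
    · left
      refine ⟨by omega, ?_, posOn_of (fun t u => line_w (hP t) o (j + 1) u) ?_⟩
      · rw [ho']
        exact_mod_cast (blt_lt h1)
      · have h3 := t2w_sound (o := tn o) (k := j + 1) (by rw [← hoN]; exact hs) hne (len_rows s0)
          ha hb hlo hhi hV h2
        rw [← hoN] at h3
        exact h3
    · right
      refine ⟨by omega, ?_, posOn_of (fun t u => line_w (hP t) o (j + 1) u) ?_⟩
      · rw [ho']
        exact_mod_cast (blt_lt h1)
      · have h3 := t2w_sound (o := tn o) (k := j + 1) (by rw [← hoN]; exact hs) hne (len_rows s0)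
          ha hb hlo hhi hV h2
        rw [← hoN, sg_not] at h3
        exact h3

private theorem cvG_sound {B m n : ℕ} {G : List (List ℤ)} {um lo hi : ℕ} (hlo : lo ≤ um)
    (hhi : hi ≤ um) {s : Bool} {o : ℤ} (ho : 0 ≤ o) {x : ℕ}
    (sUU : sizeOK B 0 n (dU (dU (atT G (x : ℤ)))) 1 um = true)
    (sww : ∀ k ≤ 16, ∀ k' ≤ 16, sizeOK B 0 n (wT o k' (wT o k (atT G (x : ℤ)))) 1 um = true)
    (hne : G ≠ []) {w w' : ℕ}
    (h : cvG (kcOf B m n) (atG G x) (tn o) w w' s lo hi = true) {P : MvPolynomial (Fin 2) ℝ}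
    {t0 : ℝ} (hP : ∀ u, eval ![t0, u] P = evT (atT G (x : ℤ)) 0 u) : CvC P o w w' s t0 lo hi := by
  have hoN : o = ((tn o : ℕ) : ℤ) := by
    cases o with
    | ofNat k => rfl
    | negSucc k => exact absurd ho (by simp)
  have ho' : (o : ℝ) = ((tn o : ℕ) : ℝ) := by
    exact_mod_cast congrArg (fun z : ℤ => (z : ℝ)) hoN
  have hA : RowsOf B 0 (atT G (x : ℤ)) 0 0 (atG G x) := atG_rows B G x 0 0
  unfold CvC
  cases w with
  | zero =>
    simp only [cvG] at h
    refine Or.inl ⟨rfl, posOn_one (line_d (line_d hP)) ?_⟩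
    exact tst0_sound sUU hlo hhi (duG_rows (duG_rows hA)) h
  | succ w =>
    simp only [cvG, Bool.and_eq_true, Bool.or_eq_true] at h
    obtain ⟨⟨⟨hw, hw'⟩, h1⟩, h2⟩ := h
    have hwl : w + 1 ≤ 16 := Nat.le_of_ble_eq_true hw
    have hwl' : w' ≤ 16 := Nat.le_of_ble_eq_true hw'
    refine Or.inr ⟨by omega, ?_, posOn_one (line_w (line_w hP o (w + 1)) o w') ?_⟩
    · rw [ho']
      rcases h1 with h1 | h1
      · left
        exact_mod_cast (blt_lt h1)
      · right
        exact_mod_cast (blt_lt h1)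
    · have hs := sww (w + 1) hwl w' hwl'
      have r1 := wG_rows (atT_ne hne x) hA (len_atT G x) (tn o) (w + 1)
      have r2 := wG_rows (wT_ne _ _ _) r1 (len_wT _ _ (len_atT G x)) (tn o) w'
      rw [← hoN] at r2
      exact tst0_sound hs hlo hhi r2 h2

private theorem ne_of_pos {G : List (List ℤ)} {t u r : ℝ} (h : 0 < r * evT G t u) : G ≠ [] := by
  rintro rfl
  simp [evT] at h

theorem colG_sound {B m n d : ℕ} {ch : Chart} {G DT : List (List ℤ)} {tm um : ℕ} {sp : Bool}
    {F : MvPolynomial (Fin 3) ℝ} (hF : F.IsHomogeneous d) (hd : Even d)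
    (hG : ∀ t u : ℝ, eval (ch.pt t u) F = evT G t u) (hDT : DT = dT G)
    (hc : ctxG B m n ch G tm um = true) (hp : 0 < sg sp * eval ![0, 0, 1] F) {c : Column}
    (h : colG (kcOf B m n) ch G DT (tn ch.o) tm um sp c = true) : ColOK F sp c := by
  subst hDT
  obtain ⟨s0, sU, sT, sw, sat, hal, hch0⟩ := ctxG_sizes hc
  unfold colG at h
  simp only [Bool.and_eq_true, decide_eq_true_eq, List.all_eq_true] at h
  obtain ⟨⟨⟨⟨⟨⟨hch, nX⟩, nR⟩, hRX⟩, hbt⟩, ⟨⟨nL, nH⟩, hcap⟩⟩, hbox⟩ := h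
  subst hch
  set X := tn c.X with hX
  set R := tn c.R with hR
  have hRX' : R ≤ X := Nat.le_of_ble_eq_true hRX
  have hbt' : X + R ≤ tm := Nat.le_of_ble_eq_true hbt
  have hat' : X - R ≤ tm := by omega
  have ca : c.a = ((X - R : ℕ) : ℤ) := by
    unfold Column.a
    rw [nn_tn nX, nn_tn nR, ← hX, ← hR, Nat.cast_sub hRX']
  have cb : c.b = ((X + R : ℕ) : ℤ) := by
    unfold Column.b
    rw [nn_tn nX, nn_tn nR, ← hX, ← hR, Nat.cast_add]
  have ca' : (c.a : ℝ) = ((X - R : ℕ) : ℝ) := by rw [ca]; simp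
  have cb' : (c.b : ℝ) = ((X + R : ℕ) : ℝ) := by rw [cb]; simp
  have cH : (c.H : ℝ) = ((tn c.H : ℕ) : ℝ) := by
    have := nn_tn nH
    exact_mod_cast congrArg (fun z : ℤ => (z : ℝ)) this
  have cL : (c.L : ℝ) = ((tn c.L : ℕ) : ℝ) := by
    have := nn_tn nL
    exact_mod_cast congrArg (fun z : ℤ => (z : ℝ)) this
  have hV : RowsOf B m G (X - R) (X + R) (vsG B (pw (1 + 2 ^ B) m) G (X - R) (X + R)) :=
    vsG_rows (len_rows s0) (X - R) (X + R)
  have hVT : RowsOf B m (dT G) (X - R) (X + R)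
      (vsG B (pw (1 + 2 ^ B) m) (dT G) (X - R) (X + R)) :=
    vsG_rows (len_rows sT) (X - R) (X + R)
  have hcs := capG_sound s0 hat' hbt' hV hcap
  have hne : G ≠ [] := by
    have h1 := (hcs ((X - R : ℕ) : ℝ) ⟨le_rfl, by
      exact_mod_cast (by omega : X - R ≤ X + R)⟩).1 _ le_rfl
    exact ne_of_pos h1
  have hal' : (0 : ℝ) < c.ch.al := by exact_mod_cast hal
  have key : ∀ (t s u : ℝ), 0 < s → 0 < sg sp * evT G t u →
      0 < sg sp * eval (s • c.ch.pt t u) F := by
    intro t s u hs hpos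
    rw [ev_hom hF, hG]
    have : sg sp * (s ^ d * evT G t u) = s ^ d * (sg sp * evT G t u) := by ring
    rw [this]
    exact mul_pos (pow_pos hs d) hpos
  refine ⟨?_, ?_, ?_⟩
  · intro t ht s hs
    rw [ca', cb'] at ht
    rw [map_mul, eval_C, eval_pullEnd]
    have hp2 : pole (!true) = ![0, 0, 1] := pole_false
    rw [hp2]
    rcases hs.1.eq_or_lt with h0 | h0
    · rw [← h0, zero_smul, zero_add, sub_zero, one_smul]
      exact hp
    · have hs0 : s ≠ 0 := h0.ne'
      have hal0 : (c.ch.al : ℝ) ≠ 0 := hal'.ne'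
      have e1 : s • c.ch.pt t c.H + (1 - s) • (![0, 0, 1] : Fin 3 → ℝ) =
          s • c.ch.pt t (c.H + (1 - s) / (s * c.ch.al)) := by
        funext i
        fin_cases i
        · simp [Chart.pt]
        · simp [Chart.pt]
        · simp [Chart.pt]
          field_simp
          ring
      rw [e1]
      refine key t s _ h0 ((hcs t ht).1 _ ?_)
      rw [cH]
      have : 0 ≤ (1 - s) / (s * c.ch.al) := div_nonneg (by linarith [hs.2]) (by positivity)
      linarith
  · intro t ht s hs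
    rw [ca', cb'] at ht
    rw [map_mul, eval_C, eval_pullEnd]
    have hp2 : pole (!false) = (-1 : ℝ) • (![0, 0, 1] : Fin 3 → ℝ) := pole_true
    rw [hp2]
    rcases hs.1.eq_or_lt with h0 | h0
    · rw [← h0, zero_smul, zero_add, sub_zero, one_smul, ev_hom hF, hd.neg_one_pow, one_mul]
      exact hp
    · have hs0 : s ≠ 0 := h0.ne'
      have hal0 : (c.ch.al : ℝ) ≠ 0 := hal'.ne'
      have e1 : s • c.ch.pt t c.L + (1 - s) • ((-1 : ℝ) • (![0, 0, 1] : Fin 3 → ℝ)) =
          s • c.ch.pt t (c.L - (1 - s) / (s * c.ch.al)) := by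
        funext i
        fin_cases i
        · simp [Chart.pt]
        · simp [Chart.pt]
        · simp [Chart.pt]
          field_simp
          ring
      rw [e1]
      refine key t s _ h0 ((hcs t ht).2 _ ?_)
      rw [cL]
      have : 0 ≤ (1 - s) / (s * c.ch.al) := div_nonneg (by linarith [hs.2]) (by positivity)
      linarith
  · intro b hb
    have hbb := hbox b hb
    unfold boxG at hbb
    rw [Bool.and_eq_true] at hbb
    obtain ⟨hb1, hb2⟩ := hbb
    simp only [Bool.and_eq_true] at hb1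
    obtain ⟨⟨⟨nc, ns⟩, hsc⟩, hhi⟩ := hb1
    have hsc' : tn b.s ≤ tn b.c := Nat.le_of_ble_eq_true hsc
    have hhi' : tn b.c + tn b.s ≤ um := Nat.le_of_ble_eq_true hhi
    have hlo' : tn b.c - tn b.s ≤ um := by omega
    have hcu : tn b.c ≤ um := by omega
    have blo : (b.lo : ℝ) = ((tn b.c - tn b.s : ℕ) : ℝ) := by
      have : b.lo = ((tn b.c - tn b.s : ℕ) : ℤ) := by
        unfold Box.lo
        rw [Nat.cast_sub hsc', ← nn_tn nc, ← nn_tn ns]
      exact_mod_cast congrArg (fun z : ℤ => (z : ℝ)) this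
    have bhi : (b.hi : ℝ) = ((tn b.c + tn b.s : ℕ) : ℝ) := by
      have : b.hi = ((tn b.c + tn b.s : ℕ) : ℤ) := by
        unfold Box.hi
        rw [Nat.cast_add, ← nn_tn nc, ← nn_tn ns]
      exact_mod_cast congrArg (fun z : ℤ => (z : ℝ)) this
    have bc : (b.c : ℝ) = ((tn b.c : ℕ) : ℝ) := by
      exact_mod_cast congrArg (fun z : ℤ => (z : ℝ)) (nn_tn nc)
    have f0 : ∀ t u, eval ![t, u] (c.ch.pull F) = evT G t u := e0 hG
    have fT : ∀ t u, eval ![t, u] (pderiv 0 (c.ch.pull F)) = evT (dT G) t u := eT hG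
    -- the vertical sides
    have fL : ∀ (x : ℕ) (u : ℝ), eval ![(x : ℝ), u] (c.ch.pull F) = evT (atT G x) 0 u := by
      intro x u
      rw [evT_atT, f0]
      norm_num
    have hAt : ∀ x : ℕ, RowsOf B 0 (atT G (x : ℤ)) 0 0 (atG G x) := fun x => atG_rows B G x 0 0
    rw [BoxOK, ca', cb', blo, bhi, bc]
    have ty : b.ty = 0 ∨ b.ty = 1 ∨ b.ty = 2 ∨ b.ty = 3 ∨ 4 ≤ b.ty := by omega
    rcases ty with ty | ty | ty | ty | ty
    · rw [ty] at hb2
      simp only [Bool.and_eq_true, beq_iff_eq] at hb2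
      obtain ⟨q1, q2⟩ := hb2
      have p2 := t2_sound s0 hat' hbt' hlo' hhi' hV q2
      refine ⟨posOn_of f0 (fun t ht u hu => p2 t ht u ⟨hu.1, hu.2.trans ?_⟩),
        posOn_of f0 (fun t ht u hu => ?_), Or.inl ⟨ty, q1, posOn_of f0 p2⟩⟩
      · exact_mod_cast (by omega : tn b.c - tn b.s ≤ tn b.c + tn b.s)
      · rw [← q1]
        refine p2 t ht u ⟨le_trans ?_ hu.1, hu.2⟩
        exact_mod_cast (by omega : tn b.c - tn b.s ≤ tn b.c + tn b.s)
    · rw [ty] at hb2
      simp only [Bool.and_eq_true, beq_iff_eq] at hb2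
      obtain ⟨⟨⟨q1, q2⟩, q3⟩, q4⟩ := hb2
      have p2 := upG_sound s0 sU sw hch0 hne hat' hbt' hlo' hhi' hV q2 f0
      have p3 := tst1_sound s0 hat' hbt' hlo' hV q3
      have p4 := tst1_sound s0 hat' hbt' hhi' hV q4
      exact ⟨posOn_pt f0 p3, posOn_pt f0 p4, Or.inr (Or.inl ⟨ty, q1, p2⟩)⟩
    · rw [ty] at hb2
      simp only [Bool.and_eq_true, beq_iff_eq] at hb2
      obtain ⟨⟨⟨⟨⟨⟨q1, q2⟩, q3⟩, q4⟩, q5⟩, q6⟩, q7⟩ := hb2
      have p2 := tst1_sound s0 hat' hbt' hlo' hV q2
      have p3 := tst1_sound s0 hat' hbt' hhi' hV q3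
      have p4 := tst0_sound (sat _ hat').1 hlo' hhi' (hAt _) q4
      have p5 := t2_sound sT hat' hbt' hlo' hhi' hVT q5
      have p6 := cvG_sound hlo' hhi' hch0 (sat _ hbt').2.1 (sat _ hbt').2.2 hne q6 (fL (X + R))
      have p7 := tstP_sound (len_atT G _) (hAt _) q7
      rw [sg_not] at p5 p7
      exact ⟨posOn_pt f0 p2, posOn_pt f0 p3, Or.inr (Or.inr (Or.inl ⟨ty, q1,
        posOn_one (fL (X - R)) p4, posOn_of fT p5, p6, posOn_pt1 (fL (X + R)) p7⟩))⟩
    · rw [ty] at hb2
      simp only [Bool.and_eq_true, beq_iff_eq] at hb2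
      obtain ⟨⟨⟨⟨⟨⟨q1, q2⟩, q3⟩, q4⟩, q5⟩, q6⟩, q7⟩ := hb2
      have p2 := tst1_sound s0 hat' hbt' hlo' hV q2
      have p3 := tst1_sound s0 hat' hbt' hhi' hV q3
      have p4 := tst0_sound (sat _ hbt').1 hlo' hhi' (hAt _) q4
      have p5 := t2_sound sT hat' hbt' hlo' hhi' hVT q5
      have p6 := cvG_sound hlo' hhi' hch0 (sat _ hat').2.1 (sat _ hat').2.2 hne q6 (fL (X - R))
      have p7 := tstP_sound (len_atT G _) (hAt _) q7
      rw [sg_not] at p7
      exact ⟨posOn_pt f0 p2, posOn_pt f0 p3, Or.inr (Or.inr (Or.inr ⟨ty, q1,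
        posOn_one (fL (X + R)) p4, posOn_of fT p5, p6, posOn_pt1 (fL (X - R)) p7⟩))⟩
    · exfalso
      obtain ⟨k, hk⟩ : ∃ k, b.ty = k + 4 := ⟨b.ty - 4, by omega⟩
      rw [hk] at hb2
      exact absurd hb2 (by simp)

end Oct
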